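import Pool.Agent.Y223.G.Stm8
import Pool.Agent.Y363.G.Atlas

/-!
# Compatible weighted blowups with a second grading give an atlas
-/

set_option autoImplicit false

namespace Pool.Agent.Y484.H

open Pool.Agent.Y223.G Pool.Agent.Y363.G

section basic

variable {k K K₂ : Type} [CommRing k] [Field K] [Field K₂] [Algebra k K] [Algebra k K₂]
  (ε : LP K →ₐ[k] K₂)

lemma ee_mul (d b d' b' : ℤ) (a a' : K) :
    hm d (ε (hm b a)) * hm d' (ε (hm b' a')) = hm (d + d') (ε (hm (b + b') (a * a'))) := by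
  rw [hm_mul, ← map_mul, hm_mul]

lemma ee_pow (d b : ℤ) (a : K) (n : ℕ) :
    hm d (ε (hm b a)) ^ n = hm (n * d) (ε (hm (n * b) (a ^ n))) := by
  rw [hm_pow, ← map_pow, hm_pow]

lemma ee_one : hm 0 (ε (hm 0 (1 : K))) = 1 := by
  rw [hm_one, map_one, hm_one]

lemma ee_ne (hε : Function.Injective ε) {b : ℤ} {a : K} (ha : a ≠ 0) : ε (hm b a) ≠ 0 := by
  intro h
  rw [← map_zero ε] at h
  exact hm_ne_zero ha (hε h)

lemma ee_alg (s : k) : algebraMap k K₂ s = ε (hm 0 (algebraMap k K s)) := by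
  rw [← algebraMap_LP]
  exact (ε.commutes s).symm

lemma ee_unit {R : Subalgebra k (LP K₂)} {n₀ : ℕ} {w : K} (h1 : hm 0 (ε (hm n₀ w)) ∈ R)
    (h2 : hm 0 (ε (hm (-n₀) w⁻¹)) ∈ R) (j : ℤ) : hm 0 (ε (hm (j * n₀) (w ^ j))) ∈ R := by
  rcases le_total 0 j with h | h
  · obtain ⟨n, rfl⟩ := Int.eq_ofNat_of_zero_le h
    have := R.pow_mem h1 n
    rw [ee_pow, mul_zero] at this
    rwa [zpow_natCast]
  · obtain ⟨n, hn⟩ := Int.eq_ofNat_of_zero_le (a := -j) (by omega)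
    have hj : j = -(n : ℤ) := by
      have : -j = (n : ℤ) := hn
      omega
    subst hj
    have := R.pow_mem h2 n
    rw [ee_pow, mul_zero, inv_pow] at this
    rw [zpow_neg, zpow_natCast, show -(n : ℤ) * n₀ = n * -(n₀ : ℤ) by ring]
    exact this

lemma loc_le {R : Subalgebra k (LP K₂)} {x y δ δ' : LP K₂} (hx : x ∈ R) (hy : y ∈ R)
    (hδ' : δ' ∈ R) (q : ℕ) (h : y = x ^ q * δ) (h1 : δ * δ' = 1) :
    loc R y hy ≤ loc R x hx := by
  rintro f ⟨n, hn⟩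
  refine ⟨q * n, ?_⟩
  have h2 := R.mul_mem hn (R.pow_mem hδ' n)
  have h3 : y ^ n * f * δ' ^ n = x ^ (q * n) * f := by
    have h4 : y ^ n * f * δ' ^ n = x ^ (q * n) * f * (δ * δ') ^ n := by
      rw [h, mul_pow, ← pow_mul, mul_pow]
      ring
    rw [h4, h1, one_pow, mul_one]
  rwa [h3] at h2

lemma bg_loc {R : Subalgebra k (LP K₂)} (hR : BG ε R) {d b : ℤ} {a : K} (ha : a ≠ 0)
    (hx : hm d (ε (hm b a)) ∈ R) : BG ε (loc R (hm d (ε (hm b a))) hx) := by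
  rintro f ⟨n, hn⟩
  have h1 := hR _ hn
  obtain ⟨ι, hι⟩ : ∃ ι, ι = hm (n * -d) (ε (hm (n * -b) (a⁻¹ ^ n))) := ⟨_, rfl⟩
  have h0 : hm d (ε (hm b a)) ^ n * ι = 1 := by
    rw [hι, ← ee_pow, ← mul_pow, ee_mul, add_neg_cancel, add_neg_cancel, mul_inv_cancel₀ ha,
      ee_one, one_pow]
  have h2 : ι * (hm d (ε (hm b a)) ^ n * f) = f := by
    rw [← mul_assoc, mul_comm ι, h0, one_mul]
  rw [← h2]
  have h3 : ∀ g ∈ Submodule.span k {g | g ∈ R ∧ ∃ (d b : ℤ) (a : K), g = hm d (ε (hm b a))},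
      ι * g ∈ Submodule.span k {g | g ∈ loc R (hm d (ε (hm b a))) hx ∧
        ∃ (d b : ℤ) (a : K), g = hm d (ε (hm b a))} := by
    intro g hg
    induction hg using Submodule.span_induction with
    | mem g hg =>
      obtain ⟨hg, d', b', a', rfl⟩ := hg
      refine Submodule.subset_span ⟨⟨n, ?_⟩, n * -d + d', n * -b + b', a⁻¹ ^ n * a', ?_⟩
      · rw [← mul_assoc, h0, one_mul]
        exact hg
      · rw [hι, ee_mul]
    | zero => rw [mul_zero]; exact Submodule.zero_mem _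
    | add x y _ _ hx hy => rw [mul_add]; exact Submodule.add_mem _ hx hy
    | smul r x _ hx => rw [mul_smul_comm]; exact Submodule.smul_mem _ r hx
  exact h3 _ h1

/-- a finite family of bihomogeneous elements of positive degree for the first grading, and of
degree zero for the second one -/
lemma exists_fam2 [IsNoetherianRing k] (hε : Function.Injective ε) {R : Subalgebra k (LP K₂)}
    (hCh : Ch R) (hbg : BG ε R) {n₀ : ℕ} (hn₀ : 0 < n₀) {w : K} (hw : w ≠ 0)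
    (h1 : hm 0 (ε (hm n₀ w)) ∈ R) (h2 : hm 0 (ε (hm (-n₀) w⁻¹)) ∈ R) :
    ∃ (T : Type) (_ : Finite T) (e : T → ℕ) (z : T → K)
      (hR : ∀ t, hm (e t) (ε (hm 0 (z t))) ∈ R), (∀ t, 0 < e t) ∧ (∀ t, z t ≠ 0) ∧
      ∀ V : ValuationSubring K₂, (∀ f ∈ R, ∀ d, f.coeff d ∈ V) →
        ∃ t, ∀ x, hm 0 x ∈ loc R (hm (e t) (ε (hm 0 (z t)))) (hR t) → x ∈ V := by
  classical
  have hft := hCh.ft
  have hRn : IsNoetherianRing R := Algebra.FiniteType.isNoetherianRing k R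
  let S : Set R := {x | ∃ (e : ℕ) (c : ℤ) (u : K) (he : hm e (ε (hm c u)) ∈ R),
    0 < e ∧ u ≠ 0 ∧ x = ⟨hm e (ε (hm c u)), he⟩}
  have hfg : (Ideal.span S).FG := IsNoetherian.noetherian _
  obtain ⟨T0, hT0S, hT0⟩ := (Submodule.fg_span_iff_fg_span_finset_subset S).1 hfg
  let T := {x // x ∈ T0}
  choose e c u he he0 hu0 hxeq using fun t : T => hT0S t.2
  have hrad : ∀ (d : ℕ) (a : K₂) (h : hm d a ∈ R), 0 < d →
      (⟨hm d a, h⟩ : R) ∈ Ideal.span (Set.range fun t : T =>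
        (⟨hm (e t) (ε (hm (c t) (u t))), he t⟩ : R)) := by
    intro d a h hd
    have h3 : Ideal.span S ≤ Ideal.span (Set.range fun t : T =>
        (⟨hm (e t) (ε (hm (c t) (u t))), he t⟩ : R)) := by
      have h2 : (Ideal.span S : Ideal R) = Ideal.span (T0 : Set R) := hT0
      rw [h2, Ideal.span_le]
      intro z hz
      refine Ideal.subset_span ⟨⟨z, hz⟩, ?_⟩
      exact (hxeq ⟨z, hz⟩).symm
    apply h3
    have key : ∀ g ∈ Submodule.span k {g | g ∈ R ∧ ∃ (d b : ℤ) (a : K), g = hm d (ε (hm b a))},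
        ∃ hg : hm (d : ℤ) (g.coeff d) ∈ R, (⟨hm (d : ℤ) (g.coeff d), hg⟩ : R) ∈ Ideal.span S := by
      have hz : ∀ h0 : hm (d : ℤ) (0 : K₂) ∈ R, (⟨hm (d : ℤ) (0 : K₂), h0⟩ : R) ∈ Ideal.span S := by
        intro h0
        have : (⟨hm (d : ℤ) (0 : K₂), h0⟩ : R) = 0 := Subtype.ext (hm_zero _)
        rw [this]
        exact Ideal.zero_mem _
      have hz' : hm (d : ℤ) (0 : K₂) ∈ R := by rw [hm_zero]; exact R.zero_mem
      intro g hg
      induction hg using Submodule.span_induction with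
      | mem g hg =>
        obtain ⟨hg, d', b', a', rfl⟩ := hg
        by_cases hdd : d' = d
        · subst hdd
          rw [coeff_hm_same]
          refine ⟨hg, ?_⟩
          by_cases ha' : a' = 0
          · subst ha'
            have : (⟨hm (d : ℤ) (ε (hm b' 0)), hg⟩ : R) = 0 := by
              apply Subtype.ext
              change hm (d : ℤ) (ε (hm b' 0)) = 0
              rw [hm_zero, map_zero, hm_zero]
            rw [this]
            exact Ideal.zero_mem _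
          · exact Ideal.subset_span ⟨d, b', a', hg, hd, ha', rfl⟩
        · rw [coeff_hm, if_neg hdd]
          exact ⟨hz', hz hz'⟩
      | zero =>
        rw [AddMonoidAlgebra.coeff_zero, Finsupp.zero_apply]
        exact ⟨hz', hz hz'⟩
      | add x y _ _ hx hy =>
        obtain ⟨hx1, hx2⟩ := hx
        obtain ⟨hy1, hy2⟩ := hy
        rw [AddMonoidAlgebra.coeff_add, Finsupp.add_apply]
        have h4 : hm (d : ℤ) (x.coeff d + y.coeff d) ∈ R := by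
          rw [hm_add]
          exact R.add_mem hx1 hy1
        refine ⟨h4, ?_⟩
        have h5 := Ideal.add_mem _ hx2 hy2
        have h6 : (⟨hm (d : ℤ) (x.coeff d + y.coeff d), h4⟩ : R) =
            ⟨hm (d : ℤ) (x.coeff d), hx1⟩ + ⟨hm (d : ℤ) (y.coeff d), hy1⟩ :=
          Subtype.ext (hm_add _ _ _)
        rw [h6]
        exact h5
      | smul r x _ hx =>
        obtain ⟨hx1, hx2⟩ := hx
        rw [AddMonoidAlgebra.coeff_smul, Finsupp.smul_apply]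
        have h4 : hm (d : ℤ) (r • x.coeff d) ∈ R := by
          rw [← smul_hm]
          exact R.smul_mem hx1 r
        refine ⟨h4, ?_⟩
        have h5 := Ideal.mul_mem_left _ (algebraMap k R r) hx2
        have h6 : (⟨hm (d : ℤ) (r • x.coeff d), h4⟩ : R) =
            algebraMap k R r * ⟨hm (d : ℤ) (x.coeff d), hx1⟩ := by
          rw [← Algebra.smul_def]
          exact Subtype.ext (smul_hm _ _ _).symm
        rw [h6]
        exact h5
    obtain ⟨hg, h4⟩ := key _ (hbg _ h)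
    have h5 : (⟨hm (d : ℤ) ((hm (d : ℤ) a).coeff d), hg⟩ : R) = ⟨hm d a, h⟩ := by
      apply Subtype.ext
      change hm (d : ℤ) ((hm (d : ℤ) a).coeff d) = hm d a
      rw [coeff_hm_same]
    rw [h5] at h4
    exact h4
  have hδ : ∀ j : ℤ, hm 0 (ε (hm (j * n₀) (w ^ j))) * hm 0 (ε (hm (-j * n₀) (w ^ (-j)))) = 1 := by
    intro j
    rw [ee_mul, ← zpow_add₀ hw, add_neg_cancel, zpow_zero, add_zero,
      show j * (n₀ : ℤ) + -j * n₀ = 0 by ring, ee_one]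
  have hy : ∀ t, hm ((n₀ * e t : ℕ) : ℤ) (ε (hm 0 (u t ^ n₀ * w ^ (-c t)))) =
      hm (e t) (ε (hm (c t) (u t))) ^ n₀ * hm 0 (ε (hm (-c t * n₀) (w ^ (-c t)))) := by
    intro t
    rw [ee_pow, ee_mul, show (n₀ : ℤ) * c t + -c t * n₀ = 0 by ring, add_zero]
    push_cast
    rfl
  have hyR : ∀ t, hm ((n₀ * e t : ℕ) : ℤ) (ε (hm 0 (u t ^ n₀ * w ^ (-c t)))) ∈ R := by
    intro t
    rw [hy]
    exact R.mul_mem (R.pow_mem (he t) _) (ee_unit ε h1 h2 _)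
  refine ⟨T, inferInstance, fun t => n₀ * e t, fun t => u t ^ n₀ * w ^ (-c t), hyR,
    fun t => Nat.mul_pos hn₀ (he0 t),
    fun t => mul_ne_zero (pow_ne_zero _ (hu0 t)) (zpow_ne_zero _ hw), ?_⟩
  intro V hV
  obtain ⟨t, ht⟩ := cover_cv hCh (hR := he) (fun t => ee_ne ε hε (hu0 t)) hrad V hV
  refine ⟨t, fun x hx => ht x ?_⟩
  exact loc_le (he t) (hyR t) (ee_unit ε h1 h2 (-(-c t))) n₀ (hy t) (hδ _) hx

end basic

/-- **Compatible weighted blowups with a second grading give an atlas.** -/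
theorem t_ATLAS2 : S_ATLAS2 := by
  intro k K K₂ _ _ _ _ _ _ _ _ ε hε P M₀ 𝒱 h𝒱 n₀ hn₀ 𝒜 _ R hh hCh hbg hh0 hsi hsu hrt hgl hcv
    hfr hve hvs hmo
  classical
  choose w hw0 hw1 hw2 using hsu
  choose T hT e z hR he0 hz0 hcov using fun a => exists_fam2 ε hε.inj (hCh a) (hbg a) hn₀ (hw0 a)
    (hw1 a) (hw2 a)
  have h𝒜f : Fintype 𝒜 := Fintype.ofFinite 𝒜
  have hTf : ∀ a, Fintype (T a) := fun a => Fintype.ofFinite (T a)
  let Q := Σ a, T a
  let e' : Q → ℕ := fun p => e p.1 p.2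
  let z' : Q → K := fun p => z p.1 p.2
  have he' : ∀ p, 0 < e' p := fun p => he0 p.1 p.2
  have hz'0 : ∀ p, z' p ≠ 0 := fun p => hz0 p.1 p.2
  have hRp : ∀ p, hm (e' p) (ε (hm 0 (z' p))) ∈ R p.1 := fun p => hR p.1 p.2
  obtain ⟨E, hE⟩ : ∃ E : ℕ, E = ∏ p, e' p := ⟨_, rfl⟩
  have hE0 : 0 < E := by
    rw [hE]
    exact Finset.prod_pos fun j _ => he' j
  let q : Q → ℕ := fun p => E / e' p
  have hq : ∀ p, q p * e' p = E := fun p =>
    Nat.div_mul_cancel (by rw [hE]; exact Finset.dvd_prod_of_mem e' (Finset.mem_univ p))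
  let y : Q → K := fun p => z' p ^ q p
  have hy0 : ∀ p, y p ≠ 0 := fun p => pow_ne_zero _ (hz'0 p)
  have hκ : ∀ p, hm (e' p) (ε (hm 0 (z' p))) ^ q p = hm (E : ℤ) (ε (hm 0 (y p))) := by
    intro p
    rw [ee_pow, mul_zero]
    congr 1
    exact_mod_cast hq p
  have hκR : ∀ p, hm (E : ℤ) (ε (hm 0 (y p))) ∈ R p.1 := by
    intro p
    rw [← hκ]
    exact (R p.1).pow_mem (hRp p) _
  have hyR : ∀ p, hm 0 (ε (hm 0 (y p))) ∈ R p.1 := fun p => (hCh p.1).cf _ _ (hκR p)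
  choose n1 hn1 using fun (a : 𝒜) (p : Q) => hgl a p.1 _ (hκR p)
  obtain ⟨N1, hN1⟩ : ∃ N1 : ℕ, ∀ a p, n1 a p ≤ N1 :=
    ⟨Finset.univ.sup fun a => Finset.univ.sup (n1 a), fun a p =>
      (Finset.le_sup (f := n1 a) (Finset.mem_univ p)).trans
        (Finset.le_sup (f := fun a => Finset.univ.sup (n1 a)) (Finset.mem_univ a))⟩
  obtain ⟨N2, hN2⟩ : ∃ N2 : ℕ, P → ∃ n : ℕ, 1 ≤ n ∧ (∀ a, hh a ∈ sat (M₀ ^ n) ∧
      (∀ m ∈ M₀ ^ n, ∃ s : k, s ≠ 0 ∧ hm 0 (ε (hm 0 (s • (m / hh a)))) ∈ R a) ∧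
      ∀ (f : K) (b : ℤ), hm 0 (ε (hm b f)) ∈ R a → ∃ N₀ : ℕ, ∀ N, N₀ ≤ N →
        hh a ^ N * f ∈ sat (M₀ ^ (n * N))) ∧
      ∀ p, ∀ N, N2 ≤ N → hh p.1 ^ N * y p ∈ sat (M₀ ^ (n * N)) := by
    by_cases hP : P
    · obtain ⟨n, hn, h1⟩ := hmo hP
      choose N0 hN0 using fun p : Q => (h1 p.1).2.2 _ _ (hyR p)
      refine ⟨Finset.univ.sup N0, fun _ => ⟨n, hn, h1, fun p N hN => hN0 p N ?_⟩⟩
      exact (Finset.le_sup (f := N0) (Finset.mem_univ p)).trans hN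
    · exact ⟨0, fun h => absurd h hP⟩
  obtain ⟨N, hN⟩ : ∃ N : ℕ, N = N1 + N2 + 1 := ⟨_, rfl⟩
  have F1 : ∀ (a : 𝒜) (p : Q) (m c : ℕ), m * N1 ≤ c →
      hm 0 (ε (hm 0 (hh p.1 / hh a))) ^ c * hm (E : ℤ) (ε (hm 0 (y p))) ^ m ∈ R a := by
    intro a p m c hc
    obtain ⟨b, rfl⟩ := Nat.exists_eq_add_of_le hc
    obtain ⟨d, hd⟩ := Nat.exists_eq_add_of_le (hN1 a p)
    have h3 : hm 0 (ε (hm 0 (hh p.1 / hh a))) ^ (m * N1 + b) *
        hm (E : ℤ) (ε (hm 0 (y p))) ^ m = hm 0 (ε (hm 0 (hh p.1 / hh a))) ^ (m * d + b) *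
          (hm 0 (ε (hm 0 (hh p.1 / hh a))) ^ n1 a p * hm (E : ℤ) (ε (hm 0 (y p)))) ^ m := by
      rw [hd]; ring
    rw [h3]
    exact (R a).mul_mem ((R a).pow_mem (hrt a p.1) _) ((R a).pow_mem (hn1 a p) _)
  let H : Q → K := fun p => hh p.1 ^ N * y p
  have hH0 : ∀ p, H p ≠ 0 := fun p => mul_ne_zero (pow_ne_zero _ (hh0 _)) (hy0 p)
  have htr : ∀ p p' : Q, hm (E : ℤ) (ε (hm 0 (y p))) * hm 0 (ε (hm 0 (H p' / H p))) =
        hm 0 (ε (hm 0 (hh p'.1 / hh p.1))) ^ N * hm (E : ℤ) (ε (hm 0 (y p'))) := by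
    intro p p'
    rw [ee_pow, ee_mul, ee_mul]
    have e1 := hh0 p.1
    have e2 := hy0 p
    have e3 : y p * (H p' / H p) = (hh p'.1 / hh p.1) ^ N * y p' := by
      change y p * (hh p'.1 ^ N * y p' / (hh p.1 ^ N * y p)) = _
      rw [div_pow]
      field_simp
    rw [e3]
    congr 1
    ring
  have hinvp : ∀ p, hm (-(E : ℤ)) (ε (hm 0 (y p)⁻¹)) ∈
      loc (R p.1) (hm (E : ℤ) (ε (hm 0 (y p)))) (hκR p) := by
    intro p
    refine inv_mem_loc _ _ _ _ ?_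
    rw [ee_mul, add_neg_cancel, mul_inv_cancel₀ (hy0 p), add_zero, ee_one]
  refine ⟨E, Q, inferInstance,
    fun p => loc (R p.1) (hm (E : ℤ) (ε (hm 0 (y p)))) (hκR p), H, ?_⟩
  refine
    { H0 := hH0
      ft := fun p => ft_loc (hCh p.1).ft (hκR p) (isUnit_hm (ee_ne ε hε.inj (hy0 p)))
      rg := fun p => (hCh p.1).rg E _ (hκR p) hE0 (ee_ne ε hε.inj (hy0 p))
      gr := fun p => gr_loc (hCh p.1).gr (ee_ne ε hε.inj (hy0 p)) (hκR p)
      bg := fun p => bg_loc ε (hbg p.1) (hy0 p) (hκR p)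
      ss := fun p => le_loc _ _ _ (hCh p.1).ss
      si := fun p => le_loc _ _ _ (hsi p.1)
      su := fun p => ⟨w p.1, hw0 p.1, le_loc _ _ _ (hw1 p.1), le_loc _ _ _ (hw2 p.1)⟩
      un := ?_
      fr := ?_
      rt := ?_
      gl := ?_
      cv := ?_
      ve := ?_
      vs := ?_
      mo := ?_ }
  · intro p
    refine ⟨E, hE0, le_rfl, 0, y p, hy0 p, le_loc _ _ _ (hκR p), ?_⟩
    rw [neg_zero]
    exact hinvp p
  · intro p x
    obtain ⟨y, y', hy, hy', h0, hxy⟩ := hfr p.1 x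
    exact ⟨y, y', le_loc _ _ _ hy, le_loc _ _ _ hy', h0, hxy⟩
  · intro p p'
    refine ⟨1, ?_⟩
    rw [pow_one, htr]
    have := F1 p.1 p' 1 N (by rw [one_mul, hN]; omega)
    rwa [pow_one] at this
  · rintro p p' f ⟨m, hm'⟩
    obtain ⟨n2, hn2⟩ := hgl p.1 p'.1 _ hm'
    refine ⟨m + n2, m + n2, ?_⟩
    have h3 : n2 * N1 + n2 ≤ N * (m + n2) := by
      have h6 : N * (m + n2) = N1 * m + N1 * n2 + N2 * (m + n2) + m + n2 := by
        rw [hN]; ring
      rw [h6]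
      have : n2 * N1 = N1 * n2 := mul_comm _ _
      omega
    obtain ⟨d', hd'⟩ := Nat.exists_eq_add_of_le h3
    have h1 : hm (E : ℤ) (ε (hm 0 (y p))) ^ (m + n2) *
          (hm 0 (ε (hm 0 (H p' / H p))) ^ (m + n2) * f) =
        hm 0 (ε (hm 0 (hh p'.1 / hh p.1))) ^ d' *
          ((hm 0 (ε (hm 0 (hh p'.1 / hh p.1))) ^ (n2 * N1) *
            hm (E : ℤ) (ε (hm 0 (y p'))) ^ n2) *
          (hm 0 (ε (hm 0 (hh p'.1 / hh p.1))) ^ n2 *
            (hm (E : ℤ) (ε (hm 0 (y p'))) ^ m * f))) := by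
      rw [← mul_assoc, ← mul_pow, htr, mul_pow, ← pow_mul, hd']
      ring
    rw [h1]
    exact (R p.1).mul_mem ((R p.1).pow_mem (hrt _ _) _)
      ((R p.1).mul_mem (F1 p.1 p' _ _ le_rfl) hn2)
  · intro V hV
    obtain ⟨a, ha⟩ := hcv V hV
    obtain ⟨t, ht⟩ := hcov a V (fun f hf d => ha _ ((hCh a).cf d _ ((hCh a).gr f hf d)))
    refine ⟨⟨a, t⟩, fun x hx => ht x ?_⟩
    refine loc_le (δ := 1) (δ' := 1) (hR a t) (hκR ⟨a, t⟩) (R a).one_mem (q ⟨a, t⟩) ?_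
      (mul_one _) hx
    rw [mul_one]
    exact (hκ ⟨a, t⟩).symm
  · intro hP p
    obtain ⟨s, hs, h1⟩ := hve hP p.1
    exact ⟨s, hs, le_loc _ _ _ h1⟩
  · intro hP p
    obtain ⟨s, hs, h1⟩ := hvs hP p.1
    exact ⟨s, hs, le_loc _ _ _ h1⟩
  · intro hP
    obtain ⟨n, hn, h1, h2⟩ := hN2 hP
    refine ⟨n * N, Nat.mul_pos hn (by omega), fun p => ⟨?_, ?_, ?_⟩⟩
    · exact h2 p N (by omega)
    · intro m hm'
      rw [pow_mul] at hm'
      obtain ⟨s, hs, h3⟩ := div_pow_mem (R := (R p.1).comap ((zer k K₂).comp ε))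
        (h1 p.1).2.1 N m hm'
      have h3' : hm 0 (ε (hm 0 (s • (m / hh p.1 ^ N)))) ∈ R p.1 := h3
      obtain ⟨s0, hs0, h4⟩ := hve hP p.1
      rw [ee_alg ε] at h4
      refine ⟨s * s0 ^ E, mul_ne_zero hs (pow_ne_zero _ hs0), ?_⟩
      have h5 := (loc (R p.1) (hm (E : ℤ) (ε (hm 0 (y p)))) (hκR p)).mul_mem
        (le_loc (R p.1) (hm (E : ℤ) (ε (hm 0 (y p)))) (hκR p) h3')
        ((loc (R p.1) (hm (E : ℤ) (ε (hm 0 (y p)))) (hκR p)).mul_mem
          (le_loc (R p.1) (hm (E : ℤ) (ε (hm 0 (y p)))) (hκR p) ((R p.1).pow_mem h4 E))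
          (hinvp p))
      rw [ee_pow, ee_mul, ee_mul] at h5
      have e5 : (0 : ℤ) + ((E : ℤ) * 1 + -(E : ℤ)) = 0 := by ring
      have e7 : (0 : ℤ) + ((E : ℤ) * 0 + 0) = 0 := by ring
      rw [e5, e7] at h5
      have e6 : s • (m / hh p.1 ^ N) * (algebraMap k K s0 ^ E * (y p)⁻¹) =
          (s * s0 ^ E) • (m / H p) := by
        change _ = (s * s0 ^ E) • (m / (hh p.1 ^ N * y p))
        rw [Algebra.smul_def, Algebra.smul_def, map_mul, map_pow]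
        have e1 := pow_ne_zero N (hh0 p.1)
        have e2 := hy0 p
        field_simp
      rw [e6] at h5
      exact h5
    · rintro f b ⟨j, hj⟩
      rw [ee_pow, ee_mul] at hj
      have h3 := (hCh p.1).cf _ _ hj
      obtain ⟨N3, hN3⟩ := (h1 p.1).2.2 _ _ h3
      refine ⟨N3 + j, fun N' hN' => ?_⟩
      obtain ⟨l, rfl⟩ := Nat.exists_eq_add_of_le (show j ≤ N' by omega)
      have h6 := hN3 (l + N * j) (by
        have : 0 ≤ N * j := Nat.zero_le _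
        omega)
      have h7 := sat_pow (h2 p (N1 + N2) (by omega)) l
      have h8 := sat_mul h7 h6
      rw [← pow_mul, ← pow_add] at h8
      have e8 : n * (N1 + N2) * l + n * (l + N * j) = n * N * (j + l) := by
        rw [hN]
        ring
      rw [e8] at h8
      have e9 : (hh p.1 ^ (N1 + N2) * y p) ^ l *
          (hh p.1 ^ (l + N * j) * (y p ^ j * f)) = H p ^ (j + l) * f := by
        change _ = (hh p.1 ^ N * y p) ^ (j + l) * f
        rw [hN, mul_pow, mul_pow, ← pow_mul, ← pow_mul]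
        ring
      rw [e9] at h8
      exact h8

end Pool.Agent.Y484.H
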